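import Pool.Agent.Helper14.FracRado.Ratio

set_option autoImplicit false

/-!
# Rado's problem for squares whose side lengths have a bounded ratio

Let `a > 0`, `r ≥ 1`, and let `F` be a finite collection of closed axis-parallel squares whose
side lengths all lie in `[a, r a]`. Then `F` has a nonoverlapping subcollection `G` with
`A(G) ≥ A(F) / min(2 + 2 r, 4 + r)`.

Proof. Cut the plane into horizontal strips of height `2 ℓ` with a random offset. In a strip take,
among the squares which lie in it and meet its central line, a family with nonoverlapping
projections and of the largest possible area; by the fractional theorem and the perfection of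
interval graphs its area is at least half of the integral over `x` of the largest side of such a
square above `x`. On average this gives `4 ℓ A(G) ≥ ∫ m`, where `m(z)` is the largest side of a
member of `F` which contains `z` and lies in the strip of height `2 ℓ` centred at `z`. A
one-dimensional covering lemma on vertical lines bounds the integral from below; one scale
`ℓ = (1 + r) a / 2` gives `2 + 2 r`, the two scales `ℓ = a` and `ℓ = (2 + r) a / 2` give `4 + r`.
-/

namespace Pool.Agent.Results.MP_4a26d3_co.BoundedRatio

open Pool.Agent.Helper15.Rado Pool.Agent.Helper14.FracRado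

theorem result {a r : ℝ} (ha : 0 < a) (hr : 1 ≤ r) (F : Finset Sq)
    (hF : ∀ Q ∈ F, a ≤ Q.s ∧ Q.s ≤ r * a) :
    ∃ G ⊆ F, NonOv G ∧ area F / min (2 + 2 * r) (4 + r) ≤ area G := by
  rcases le_total r 2 with h | h
  · obtain ⟨G, hGF, hno, hG⟩ := ratio_one ha hr F hF
    refine ⟨G, hGF, fun P hP Q hQ hPQ => disjoint_of_not_ov (hno P hP Q hQ hPQ), ?_⟩
    rw [min_eq_left (by linarith), div_le_iff₀ (by linarith), mul_comm]
    exact hG
  · obtain ⟨G, hGF, hno, hG⟩ := ratio_two ha h F hF
    refine ⟨G, hGF, fun P hP Q hQ hPQ => disjoint_of_not_ov (hno P hP Q hQ hPQ), ?_⟩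
    rw [min_eq_right (by linarith), div_le_iff₀ (by linarith), mul_comm]
    exact hG

end Pool.Agent.Results.MP_4a26d3_co.BoundedRatio
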