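import Pool.Agent.Helper15.Rado.Global

set_option autoImplicit false

/-!
# Rado's problem on disjoint squares: `c_2 ≥ 1/7`

The constant `c2` (file `Pool/Agent/Helper15/Rado/Defs.lean`) is the supremum of all `c ≥ 0` such
that every finite collection `F` of closed axis-parallel squares has a nonoverlapping
subcollection `G` with `A(G) ≥ c A(F)`.

Idea of the proof.  Choose a nonoverlapping `G ⊆ F` for which the sum of the CUBES of the sides is
as large as possible.  For a square `K` of `F` let `m(K)` be the sum of `s^3` over the members of
`G` which overlap `K`.  A point `z` of the union is charged to the members `Q` of `G` overlapping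
the square `K` through `z` with the largest `m(K)`, in the proportions `s_Q^3 / m(K)`.  By
optimality `m(K) ≥ s_K^3`, and `m(K) + m(L) ≥ s_K^3 + s_L^3 + s_Q^3` whenever `K, L` do not overlap
and both overlap `Q`.  Hence every `Q` is charged at most `7 s_Q^2`: the square itself gives `1`,
the four side columns give `2 * 2^(2/3)`, and the four corners give less than `2.83` (integration
along rays from the corners; the four squares at the ends of the rays of a pinwheel).
-/

namespace Pool.Agent.Results.MP_4a26d3_co.OneSeventh

theorem result : (1 : ℝ) / 7 ≤ Pool.Agent.Helper15.Rado.c2 :=
  Pool.Agent.Helper15.Rado.c2_ge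

end Pool.Agent.Results.MP_4a26d3_co.OneSeventh
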