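import Pool.Agent.Helper14.FracRado.TwoS

set_option autoImplicit false

/-!
# Rado's problem on disjoint squares: two side lengths

For squares of two side lengths `b ≤ a` with ratio `μ = b / a` there is a nonoverlapping
subcollection `G` with `A(G) ≥ kap2 μ * A(F)`, where `kap2 μ` is the largest of `37/200`,
`μ / (2 (1 + μ))` and, for `μ ≤ 1/2`, `μ / 4 + (1 - μ)² / (4 - 2 μ + 3 μ²)`.

The strip method at the scale of the large squares gives `(λ + μ (1 - λ)) / 4`, where `λ` is the
proportion of `A(F)` covered by large squares; this is combined with the choice of large squares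
followed by small ones (`Pool.Agent.Helper19.Rado.two_first`). The strip method at the scale
`(a + b) / 2` gives `μ / (2 (1 + μ))`.
-/

namespace Pool.Agent.Results.MP_4a26d3_co.TwoSidesStrips

open Pool.Agent.Helper15.Rado

theorem result {a b : ℝ} (hb : 0 < b) (hab : b ≤ a) (F : Finset Sq)
    (hF : ∀ Q ∈ F, Q.s = a ∨ Q.s = b) :
    ∃ G ⊆ F, NonOv G ∧ Pool.Agent.Helper14.FracRado.kap2 (b / a) * area F ≤ area G :=
  Pool.Agent.Helper14.FracRado.two_sides2 hb hab F hF

end Pool.Agent.Results.MP_4a26d3_co.TwoSidesStrips
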