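import Pool.Agent.Helper27.RadoUB.Reduction
import Pool.Agent.Helper14.RadoUB.Main
import Pool.Agent.Helper15.Rado.Global

/-!
# The upper bound `49/200` for Rado's constant for squares

`c2` is the supremum of all real `c ≥ 0` such that every finite collection of closed
axis-parallel squares in the plane has a nonoverlapping subcollection of total area at least `c`
times the area of the union.

The collections: on a board of `10 N` times `10 N` cells of side `2` every cell carries either
itself or its four quarters, all squares being slightly enlarged.  A nonoverlapping subcollection
is then a packing of the lattice points of the board by blocks, covering the four corners of a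
cell, and monomers, covering one corner (file `Pool/Agent/Helper27/RadoUB/Reduction.lean`).  In
the periodic pattern `big` of the two kinds of cells every packing leaves at least one point of
fifty uncovered, up to the boundary (file `Pool/Agent/Helper14/RadoUB/Main.lean`); this is proved
by a transfer argument on vertical strips of width five with integer potentials, the strips being
decoupled by Lagrange multipliers.
-/

namespace Pool.Agent.Results.MP_4a26d3_co.UpperBound

open Pool.Agent.Helper15.Rado

theorem result : c2 ≤ 49 / 200 ∧
    ∀ c : ℝ, 49 / 200 < c → ∃ F : Finset Sq, ∀ G ⊆ F, NonOv G → area G < c * area F := by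
  have h : c2 ≤ 49 / 200 := by
    have h := Pool.Agent.Helper27.RadoUB.reduction Pool.Agent.Helper14.RadoUB.big 49 50 390 10
      (by norm_num) (by norm_num) fun N P => Pool.Agent.Helper14.RadoUB.density N P
    norm_num at h ⊢
    exact h
  refine ⟨h, fun c hc => ?_⟩
  by_contra hF
  push Not at hF
  have h1 : c ≤ c2 := le_csSup bddAbove_c2 ⟨by linarith, hF⟩
  linarith

end Pool.Agent.Results.MP_4a26d3_co.UpperBound
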